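import Pool.Agent.Helper71.HN.SheetH

/-!
Row NPT of project HN: `δ x / y` near infinity.
-/

set_option autoImplicit false

namespace Pool.Agent.Helper17.HN

open Pool.Agent.Helper71.HN

theorem NPT : ST_NPT := by
  intro N _ v s δ g a b R hv hδ hbd hg hR ha hb
  have hd1 : v (R ^ (2 * g + 1)) = Real.exp (2 * g + 1) := by
    rw [map_pow, hR, ← Real.exp_nat_mul]
    push_cast
    rw [mul_one]
  have hR0 : R ≠ 0 := by
    intro h
    rw [h, map_zero] at hR
    exact (Real.exp_pos 1).ne hR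
  have hRd : R ^ (2 * g + 1) ≠ 0 := pow_ne_zero _ hR0
  have hvb : Real.exp (2 * g + 1) ≤ v b := by
    have e : R ^ (2 * g + 1) = b + -(b - R ^ (2 * g + 1)) := by ring
    have h := hv.1 b (-(b - R ^ (2 * g + 1)))
    rw [← e, v.map_neg, hd1] at h
    rcases le_max_iff.mp h with h1 | h1
    · exact h1
    · exact absurd (lt_of_le_of_lt h1 hb) (lt_irrefl _)
  have hb0 : b ≠ 0 := by
    intro h
    rw [h, map_zero] at hvb
    exact absurd hvb (not_le.mpr (Real.exp_pos _))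
  have h2 : v (2 : N) = 1 := by
    have h := hv.2 2 (by norm_num)
    have e : (((2 : ℚ)) : N) = 2 := by norm_num
    rw [e] at h
    exact h
  have ed : δ a = 2 * R * δ R + δ (a - R ^ 2) := by
    have e : a = R ^ 2 + (a - R ^ 2) := by ring
    have h3 : δ (R ^ 2) = 2 * R * δ R := by
      rw [sq, hδ.2]
      ring
    calc δ a = δ (R ^ 2 + (a - R ^ 2)) := by rw [← e]
      _ = 2 * R * δ R + δ (a - R ^ 2) := by rw [hδ.1, h3]
  have e1 : δ a / b - 2 * R * δ R / R ^ (2 * g + 1)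
      = (δ (a - R ^ 2) * R ^ (2 * g + 1) + -(2 * R * δ R * (b - R ^ (2 * g + 1))))
        / (b * R ^ (2 * g + 1)) := by
    rw [div_sub_div _ _ hb0 hRd, ed]
    congr 1
    ring
  have k1 : v (δ (a - R ^ 2) * R ^ (2 * g + 1)) < Real.exp 2 * Real.exp (2 * g + 1) := by
    rw [map_mul, hd1]
    refine mul_lt_mul_of_pos_right ?_ (Real.exp_pos _)
    refine lt_of_le_of_lt (hbd.1 _) (lt_trans ha ?_)
    exact Real.exp_lt_exp.mpr (by norm_num)
  have k2 : v (-(2 * R * δ R * (b - R ^ (2 * g + 1)))) < Real.exp 2 * Real.exp (2 * g + 1) := by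
    rw [v.map_neg, map_mul, map_mul, map_mul, h2, one_mul, hR]
    have h4 : Real.exp 1 * v (δ R) ≤ Real.exp 2 := by
      calc Real.exp 1 * v (δ R) ≤ Real.exp 1 * Real.exp 1 :=
            mul_le_mul_of_nonneg_left (le_trans (hbd.1 R) hR.le) (Real.exp_pos 1).le
        _ = Real.exp 2 := by rw [← Real.exp_add]; norm_num
    calc Real.exp 1 * v (δ R) * v (b - R ^ (2 * g + 1))
          ≤ Real.exp 2 * v (b - R ^ (2 * g + 1)) :=
          mul_le_mul_of_nonneg_right h4 (v.nonneg _)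
      _ < Real.exp 2 * Real.exp (2 * g + 1) := mul_lt_mul_of_pos_left hb (Real.exp_pos 2)
  have k3 : v (δ (a - R ^ 2) * R ^ (2 * g + 1) + -(2 * R * δ R * (b - R ^ (2 * g + 1))))
      < Real.exp 2 * Real.exp (2 * g + 1) := lt_of_le_of_lt (hv.1 _ _) (max_lt k1 k2)
  rw [e1, map_div₀, map_mul, hd1, div_lt_iff₀ (mul_pos (v.pos hb0) (Real.exp_pos _))]
  refine lt_of_lt_of_le k3 ?_
  have e5 : Real.exp 2 = Real.exp (1 - 2 * g) * Real.exp (2 * g + 1) := by
    rw [← Real.exp_add]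
    congr 1
    ring
  rw [e5, mul_assoc]
  refine mul_le_mul_of_nonneg_left ?_ (Real.exp_pos _).le
  exact mul_le_mul_of_nonneg_right hvb (Real.exp_pos _).le

end Pool.Agent.Helper17.HN
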