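import Pool.Agent.Helper71.HN.SheetH

/-!
Row WPT of project HN: `δ x / y` is integral at every point of the curve.
-/

set_option autoImplicit false

namespace Pool.Agent.Helper17.HN

open Polynomial Finset Pool.Agent.Helper71.HN

section
variable {F N : Type} [Field F] [Field N] {τ : F →+* N} {v : AbsoluteValue N ℝ}

theorem vle1 (hc : ∀ c : F, c ≠ 0 → v (τ c) = 1) (c : F) : v (τ c) ≤ 1 := by
  by_cases h : c = 0
  · rw [h, map_zero, map_zero]
    exact zero_le_one
  · exact (hc c h).le

theorem vsum (hv : Ul v) {ι : Type} (s : Finset ι) (t : ι → N) (B : ℝ) (hB : 0 ≤ B)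
    (h : ∀ i ∈ s, v (t i) ≤ B) : v (∑ i ∈ s, t i) ≤ B := by
  refine Finset.sum_induction t (fun z => v z ≤ B) (fun a b ha hb => ?_) ?_ h
  · exact le_trans (hv.1 a b) (max_le ha hb)
  · rw [map_zero]
    exact hB

theorem vev1 (hv : Ul v) (hc : ∀ c : F, c ≠ 0 → v (τ c) = 1) (p : F[X]) (a : N)
    (ha : v a ≤ 1) : v ((p.map τ).eval a) ≤ 1 := by
  rw [eval_map, eval₂_eq_sum_range]
  refine vsum hv _ _ 1 zero_le_one (fun i _ => ?_)
  rw [map_mul, map_pow]
  exact mul_le_one₀ (vle1 hc _) (pow_nonneg (v.nonneg a) i) (pow_le_one₀ (v.nonneg a) ha)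

theorem vev2 (hv : Ul v) (hc : ∀ c : F, c ≠ 0 → v (τ c) = 1) (p : F[X]) (a : N) (n : ℕ)
    (hn : p.natDegree ≤ n) (ha : 1 ≤ v a) : v ((p.map τ).eval a) ≤ v a ^ n := by
  rw [eval_map, eval₂_eq_sum_range]
  refine vsum hv _ _ _ (pow_nonneg (v.nonneg a) n) (fun i hi => ?_)
  rw [map_mul, map_pow]
  have h1 : v a ^ i ≤ v a ^ n :=
    pow_le_pow_right₀ ha (le_trans (Nat.lt_succ_iff.mp (Finset.mem_range.mp hi)) hn)
  calc v (τ (p.coeff i)) * v a ^ i ≤ 1 * v a ^ i :=
        mul_le_mul_of_nonneg_right (vle1 hc _) (pow_nonneg (v.nonneg a) i)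
    _ ≤ v a ^ n := by rw [one_mul]; exact h1

theorem dv0 {δ : N → N} (hδ : Dv δ) : δ 0 = 0 := by
  have h := hδ.1 0 0
  rw [add_zero] at h
  have h2 : δ 0 + 0 = δ 0 + δ 0 := by rw [add_zero]; exact h
  exact (add_left_cancel h2).symm

theorem dv1 {δ : N → N} (hδ : Dv δ) : δ 1 = 0 := by
  have h := hδ.2 1 1
  rw [one_mul, one_mul] at h
  have h2 : δ 1 + 0 = δ 1 + δ 1 := by rw [add_zero]; exact h
  exact (add_left_cancel h2).symm

theorem dvpow {δ : N → N} (hδ : Dv δ) (a : N) (n : ℕ) :
    δ (a ^ (n + 1)) = ((n + 1 : ℕ) : N) * a ^ n * δ a := by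
  induction n with
  | zero => simp
  | succ n ih =>
    rw [pow_succ, hδ.2, ih]
    push_cast
    ring

theorem dvev {δ : N → N} (hδ : Dv δ) (h0 : ∀ c : F, δ (τ c) = 0) (p : F[X]) (a : N) :
    δ ((p.map τ).eval a) = ((derivative p).map τ).eval a * δ a := by
  induction p using Polynomial.induction_on' with
  | add p q hp hq =>
    rw [Polynomial.map_add, eval_add, hδ.1, hp, hq, derivative_add, Polynomial.map_add, eval_add,
      add_mul]
  | monomial n c =>
    rw [derivative_monomial, map_monomial, map_monomial, eval_monomial, eval_monomial, hδ.2, h0]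
    cases n with
    | zero =>
      rw [pow_zero, dv1 hδ]
      simp
    | succ n =>
      rw [dvpow hδ, Nat.add_sub_cancel, map_mul, map_natCast]
      ring

end

theorem WPT : ST_WPT := by
  intro F N _ _ τ v s δ g f a b hv hδ hbd hc h0 hg hfm hfd hfs hb hb0
  have hvb : 0 < v b := v.pos hb0
  have h2 : v (2 : N) ≤ 1 := by
    have h := hv.2 2 (by norm_num)
    have e : (((2 : ℚ)) : N) = 2 := by norm_num
    rw [e] at h
    exact h.le
  rcases le_or_gt (v a) 1 with ha | ha
  · -- `v a ≤ 1`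
    obtain ⟨A, B, hAB⟩ := hfs
    have hfa : v ((f.map τ).eval a) ≤ 1 := vev1 hv hc f a ha
    have hvb1 : v b ≤ 1 := by
      by_contra hlt
      rw [not_le] at hlt
      have h3 : 1 < v b ^ 2 := one_lt_pow₀ hlt (by norm_num)
      rw [← map_pow, hb] at h3
      exact absurd hfa (not_le.mpr h3)
    have e1 : (A.map τ).eval a * b ^ 2 + (B.map τ).eval a * ((derivative f).map τ).eval a = 1 := by
      have h := congrArg (fun q => (q.map τ).eval a) hAB
      simp only [Polynomial.map_add, Polynomial.map_mul, eval_add, eval_mul, Polynomial.map_one,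
        eval_one] at h
      rw [hb]
      exact h
    have e2 : ((derivative f).map τ).eval a * δ a = 2 * b * δ b := by
      rw [← dvev hδ h0 f a, ← hb, sq, hδ.2]
      ring
    have e3 : δ a / b = (A.map τ).eval a * b * δ a + 2 * (B.map τ).eval a * δ b := by
      rw [div_eq_iff hb0]
      calc δ a = ((A.map τ).eval a * b ^ 2
            + (B.map τ).eval a * ((derivative f).map τ).eval a) * δ a := by rw [e1, one_mul]
        _ = (A.map τ).eval a * b ^ 2 * δ a
            + (B.map τ).eval a * (((derivative f).map τ).eval a * δ a) := by ring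
        _ = ((A.map τ).eval a * b * δ a + 2 * (B.map τ).eval a * δ b) * b := by rw [e2]; ring
    have hA : v ((A.map τ).eval a) ≤ 1 := vev1 hv hc A a ha
    have hB : v ((B.map τ).eval a) ≤ 1 := vev1 hv hc B a ha
    have k1 : v ((A.map τ).eval a * b * δ a) ≤ v (δ a) := by
      rw [map_mul, map_mul]
      calc v ((A.map τ).eval a) * v b * v (δ a) ≤ 1 * v (δ a) :=
            mul_le_mul_of_nonneg_right (mul_le_one₀ hA (v.nonneg b) hvb1) (v.nonneg _)
        _ = v (δ a) := one_mul _
    have k2 : v (2 * (B.map τ).eval a * δ b) ≤ v (δ b) := by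
      rw [map_mul, map_mul]
      calc v (2 : N) * v ((B.map τ).eval a) * v (δ b) ≤ 1 * v (δ b) :=
            mul_le_mul_of_nonneg_right (mul_le_one₀ h2 (v.nonneg _) hB) (v.nonneg _)
        _ = v (δ b) := one_mul _
    rw [e3]
    refine ⟨?_, fun hs => ?_⟩
    · exact le_trans (hv.1 _ _) (max_le (le_trans k1 (le_trans (hbd.1 a) ha))
        (le_trans k2 (le_trans (hbd.1 b) hvb1)))
    · exact lt_of_le_of_lt (hv.1 _ _) (max_lt (lt_of_le_of_lt k1 (hbd.2 hs a ha))
        (lt_of_le_of_lt k2 (hbd.2 hs b hvb1)))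
  · -- `1 < v a`
    have key : v (δ a / b) < 1 := by
      have hr : v ((f.eraseLead.map τ).eval a) ≤ v a ^ (2 * g) := by
        refine vev2 hv hc _ a (2 * g) ?_ ha.le
        have h := eraseLead_natDegree_le f
        rw [hfd] at h
        simpa using h
      have hlt : v a ^ (2 * g) < v a ^ (2 * g + 1) := pow_lt_pow_right₀ ha (Nat.lt_succ_self _)
      have ef : (f.map τ).eval a = a ^ (2 * g + 1) + (f.eraseLead.map τ).eval a := by
        conv_lhs => rw [← eraseLead_add_C_mul_X_pow f]
        rw [hfm.leadingCoeff, hfd]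
        simp only [Polynomial.map_add, eval_add, Polynomial.map_pow, map_X, eval_pow, eval_X,
          map_one, one_mul]
        ring
      have h3 : v a ^ (2 * g + 1) ≤ v b ^ 2 := by
        have e4 : a ^ (2 * g + 1) = (f.map τ).eval a + -((f.eraseLead.map τ).eval a) := by
          rw [ef]; ring
        have h4 := hv.1 ((f.map τ).eval a) (-((f.eraseLead.map τ).eval a))
        rw [← e4, v.map_neg, map_pow, ← hb, map_pow] at h4
        rcases le_max_iff.mp h4 with h5 | h5
        · exact h5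
        · exact absurd (lt_of_le_of_lt (le_trans h5 hr) hlt) (lt_irrefl _)
      have h6 : v a ^ 2 < v b ^ 2 :=
        lt_of_lt_of_le (pow_lt_pow_right₀ ha (by omega)) h3
      have h7 : v a < v b := lt_of_pow_lt_pow_left₀ 2 (v.nonneg b) h6
      rw [map_div₀, div_lt_one hvb]
      exact lt_of_le_of_lt (hbd.1 a) h7
    exact ⟨key.le, fun _ => key⟩

end Pool.Agent.Helper17.HN
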